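import Pool.Agent.Zk59.ST.Full

set_option autoImplicit false

/-!
# MP_da365b_co, Q2: every finite 2-group without a starter is cyclic

We prove that every noncyclic finite 2-group admits a starter; this answers Q2 positively.

Outline.  Let `F` be the intersection of the subgroups of index two (the Frattini subgroup).  An involution forms a
block alone (one point), and so does an element `d` outside a subgroup `K` of index two (the two points of `G / K`); so it
suffices to cover the elements `d ∈ F`, `d² ≠ 1`, up to inversion, and involutions and elements outside `F` are free to use.

* `G` has a cyclic subgroup of index two: one explicit block with a subgroup of order four (known case).
* `G` is not generated by its involutions and has no cyclic subgroup of index two: let `M` be a subgroup of index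
  two that contains all involutions and `V` a normal Klein four-group.  The labels are placed greedily on the two halves of
  `G / V`, and the rest is completed by a bijection that uses every quotient at most twice (`bigBlock`).
* `G` is generated by involutions and `F` is cyclic: for some involutions `x`, `y` the element `(x y)²` generates `F`.  The
  labels are placed greedily on the involutions `(x y)^i x`, on which `G` acts by conjugation; the
  blocks are the conjugacy classes (subgroup = centralizer), an uncovered involution is covered by itself.
* `G` is generated by involutions and `F` is not cyclic.  Then `F` contains a Klein four-group `V` normal in `G`, and
  `|G : F| ≥ 8`.  The key step (`big_exists`): every antisymmetric set `D ⊆ F` of at most `|G| / 32` non-involutions is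
  covered by suitable blocks.
  - If there is an elementary abelian subgroup of order `≥ 8`, take `H` of maximal order `8 m` among them and `M ≥ H` of
    index two.  For `x ∈ M / H`, `y ∉ M / H` at most half of the `8 m` elements `g` with `g x = y` are involutions, by
    maximality.  In `m` copies of `G / H` the labels are placed greedily, the halves are balanced by involutions used as
    loops, and the rest is filled simultaneously by an exchange argument (`fill`).
  - Otherwise the centralizer `C` of `V` has index two and all involutions of `C` are in `V`; the big block of `C` is lifted to
    `G / V⟨x⟩`.
  If `|G : F| ≥ 16`, all labels form such a set `D`.  If `|G : F| = 8`, choose `P` normal in `G`, `V ≤ P`, of index two in `F`; any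
  four labels in `F \ P` form a block with the eight points of `G / P⟨x⟩`, `x` an involution outside `F`, and the number
  of labels in `F \ P` is even, so that at most two are left over; with the labels in `P` they form a set `D`.
-/

namespace Pool.Agent.Results.MP_da365b_co.TwoGroups

open Pool.Agent.Zk59.ST

/-- Every finite 2-group that admits no starter is cyclic. -/
theorem result (G : Type) [Group G] [Finite G] (h2 : IsPGroup 2 G) (hno : ¬ HasStarter G) : IsCyclic G := by
  by_contra hG
  exact hno (starter_of_noncyclic h2 hG)

end Pool.Agent.Results.MP_da365b_co.TwoGroups
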